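import Mathlib
import Pool.Agent.Q197.BeurFin

/-!
# MP_f46ce3_an: every Lipschitz interpolating family of pairs has a Beurling set

Let `X` be a pointed metric space and `(x i, y i)`, `i : I`, a Lipschitz interpolating family with
interpolation constant `M`.  Then there is a Beurling set: a family `f i` in `Lip₀(X)` with
`D_{x j, y j} (f i) = δ_ij` and `∑ i, |D_{u, v} (f i)| ≤ M` for all `u ≠ v`.

Proof.  By compactness it is enough to treat finitely many indices and a finite set `A` of points.
Consider the graph on `A` whose edges are all pairs `(u, v)`, with weight `M d(u, v)`, and the pairs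
`(x i, y i)`, with weight `- d(x i, y i)`.  An edge set with all degrees even has an Eulerian
orientation; interpolating the corresponding signs shows that its weight is non-negative.  So the
weight is conservative, and the weighted form of Seymour's theorem on T-joins gives a fractional
packing of cuts each of which contains exactly one negative edge.  The indicator functions of these
cuts give the Beurling set.
-/

set_option autoImplicit false

namespace Pool.Agent.Results.MP_f46ce3_an.BeurlingSets

open Finset Pool.Agent.Q197.CutPack Pool.Agent.Q197.BeurFin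
open scoped ENNReal

variable {X I : Type*} [MetricSpace X]

/-- `g` belongs to `Lip₀(X)` (it vanishes at the base point `x0`) and has norm, that is Lipschitz
constant, at most `K`. -/
def LipBall (x0 : X) (K : ℝ) (g : X → ℝ) : Prop :=
  g x0 = 0 ∧ ∀ u v, |g u - g v| ≤ K * dist u v

/-- The difference quotient `D_{u,v} g = (g(u) - g(v)) / d(u,v)`. -/
noncomputable def D (u v : X) (g : X → ℝ) : ℝ := (g u - g v) / dist u v

/-- The family `(x i, y i)` is a Lipschitz interpolating set: the map
`T g = (D_{x i, y i} g)_i` maps `Lip₀(X)` onto `ℓ_∞(I)`. -/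
def IsInterpolating (x0 : X) (x y : I → X) : Prop :=
  ∀ α : I → ℝ, (∃ c, ∀ i, |α i| ≤ c) →
    ∃ g : X → ℝ, (∃ K, LipBall x0 K g) ∧ ∀ i, D (x i) (y i) g = α i

/-- The constants `K ≥ 1` such that every `α` in the closed unit ball of `ℓ_∞(I)` has a preimage
under `T` of norm at most `K`. -/
def constSet (x0 : X) (x y : I → X) : Set ℝ :=
  {K | 1 ≤ K ∧ ∀ α : I → ℝ, (∀ i, |α i| ≤ 1) →
    ∃ g : X → ℝ, LipBall x0 K g ∧ ∀ i, D (x i) (y i) g = α i}

/-- The interpolation constant of the family. -/
noncomputable def interpConst (x0 : X) (x y : I → X) : ℝ := sInf (constSet x0 x y)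

/-- `(f i)` is a Beurling set with constant `M` for the family `(x i, y i)`. -/
def IsBeurling (x0 : X) (x y : I → X) (M : ℝ) (f : I → X → ℝ) : Prop :=
  (∀ i, ∃ K, LipBall x0 K (f i)) ∧
  (∀ i, D (x i) (y i) (f i) = 1) ∧ (∀ i j, i ≠ j → D (x j) (y j) (f i) = 0) ∧
  ∀ u v : X, u ≠ v → Summable (fun i => |D u v (f i)|) ∧ ∑' i, |D u v (f i)| ≤ M

/-- The difference quotients of Lipschitz functions, as a subspace of `ℓ_∞(X × X)`. -/
def quot (x0 : X) : Submodule ℝ (lp (fun _ : X × X => ℝ) ∞) where
  carrier := {φ | ∀ u v, φ (u, v) * dist u v = φ (u, x0) * dist u x0 - φ (v, x0) * dist v x0}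
  zero_mem' := by
    intro u v
    simp
  add_mem' := by
    intro a b ha hb u v
    have h1 := ha u v
    have h2 := hb u v
    simp only [lp.coeFn_add, Pi.add_apply]
    linarith
  smul_mem' := by
    intro c a ha u v
    have h1 := ha u v
    simp only [lp.coeFn_smul, Pi.smul_apply, smul_eq_mul]
    linear_combination c * h1

lemma quot_closed (x0 : X) : IsClosed (quot x0 : Set (lp (fun _ : X × X => ℝ) ∞)) := by
  have hev : ∀ p : X × X, Continuous (fun φ : lp (fun _ : X × X => ℝ) ∞ => φ p) := fun p =>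
    (continuous_apply p).comp (lp.uniformContinuous_coe (E := fun _ : X × X => ℝ)
      (p := ∞)).continuous
  have : (quot x0 : Set (lp (fun _ : X × X => ℝ) ∞)) = ⋂ u, ⋂ v,
      {φ | φ (u, v) * dist u v = φ (u, x0) * dist u x0 - φ (v, x0) * dist v x0} := by
    ext φ
    simp only [Set.mem_iInter, Set.mem_ofPred_eq]
    rfl
  rw [this]
  refine isClosed_iInter fun u => isClosed_iInter fun v => isClosed_eq ?_ ?_
  · exact (hev _).mul continuous_const
  · exact ((hev _).mul continuous_const).sub ((hev _).mul continuous_const)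

/-- The interpolation constant is finite (open mapping theorem). -/
lemma const_nonempty {x0 : X} {x y : I → X} (hxy : ∀ i, x i ≠ y i)
    (hT : IsInterpolating x0 x y) : (constSet x0 x y).Nonempty := by
  have : CompleteSpace (quot x0) := (quot_closed x0).completeSpace_coe
  have hmem : ∀ φ : quot x0, Memℓp (fun i : I => (φ : lp (fun _ : X × X => ℝ) ∞) (x i, y i)) ∞ := by
    intro φ
    refine memℓp_infty ⟨‖(φ : lp (fun _ : X × X => ℝ) ∞)‖, ?_⟩
    rintro _ ⟨i, rfl⟩
    exact lp.norm_apply_le_norm (by simp) _ _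
  let T0 : quot x0 →ₗ[ℝ] lp (fun _ : I => ℝ) ∞ :=
    { toFun := fun φ => ⟨fun i => (φ : lp (fun _ : X × X => ℝ) ∞) (x i, y i), hmem φ⟩
      map_add' := by
        intro a b
        ext i
        rfl
      map_smul' := by
        intro c a
        ext i
        rfl }
  let T : quot x0 →L[ℝ] lp (fun _ : I => ℝ) ∞ := T0.mkContinuous 1 (by
    intro φ
    rw [one_mul]
    refine lp.norm_le_of_forall_le (norm_nonneg _) fun i => ?_
    exact lp.norm_apply_le_norm (by simp) (φ : lp (fun _ : X × X => ℝ) ∞) (x i, y i))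
  have hTa : ∀ (φ : quot x0) (i : I), (T φ : I → ℝ) i =
      (φ : lp (fun _ : X × X => ℝ) ∞) (x i, y i) := fun φ i => rfl
  have hsurj : Function.Surjective T := by
    intro α
    obtain ⟨g, ⟨K, hg0, hg⟩, hgi⟩ := hT (fun i => α i) ⟨‖α‖, fun i => by
      have := lp.norm_apply_le_norm (by simp) α i
      rwa [Real.norm_eq_abs] at this⟩
    have hφ : Memℓp (fun p : X × X => D p.1 p.2 g) ∞ := by
      refine memℓp_infty ⟨|K|, ?_⟩
      rintro _ ⟨p, rfl⟩
      simp only [D, Real.norm_eq_abs, abs_div, abs_of_nonneg (dist_nonneg (x := p.1) (y := p.2))]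
      refine div_le_of_le_mul₀ dist_nonneg (abs_nonneg _) ((hg p.1 p.2).trans ?_)
      exact mul_le_mul_of_nonneg_right (le_abs_self K) dist_nonneg
    have hD : ∀ u v, D u v g * dist u v = g u - g v := by
      intro u v
      unfold D
      by_cases h : dist u v = 0
      · rw [dist_eq_zero] at h
        rw [h]
        simp
      · rw [div_mul_cancel₀ _ h]
    refine ⟨⟨⟨fun p => D p.1 p.2 g, hφ⟩, ?_⟩, ?_⟩
    · intro u v
      change D u v g * dist u v = D u x0 g * dist u x0 - D v x0 g * dist v x0
      rw [hD, hD, hD]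
      ring
    · ext i
      rw [hTa]
      exact hgi i
  obtain ⟨C, hC0, hC⟩ := T.exists_preimage_norm_le hsurj
  refine ⟨max 1 C, le_max_left _ _, fun α hα => ?_⟩
  have hαm : Memℓp α ∞ := by
    refine memℓp_infty ⟨1, ?_⟩
    rintro _ ⟨i, rfl⟩
    exact hα i
  obtain ⟨φ, hφT, hφn⟩ := hC ⟨α, hαm⟩
  have hαn : ‖(⟨α, hαm⟩ : lp (fun _ : I => ℝ) ∞)‖ ≤ 1 :=
    lp.norm_le_of_forall_le zero_le_one fun i => hα i
  have hφ1 : ‖φ‖ ≤ C := hφn.trans (by nlinarith)
  have hφ2 : ∀ p, |(φ : lp (fun _ : X × X => ℝ) ∞) p| ≤ C := by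
    intro p
    have := lp.norm_apply_le_norm (by simp) (φ : lp (fun _ : X × X => ℝ) ∞) p
    rw [Real.norm_eq_abs] at this
    exact this.trans hφ1
  have hφ3 := φ.2
  refine ⟨fun u => (φ : lp (fun _ : X × X => ℝ) ∞) (u, x0) * dist u x0, ⟨by simp, ?_⟩, ?_⟩
  · intro u v
    rw [← hφ3 u v, abs_mul, abs_of_nonneg (dist_nonneg (x := u) (y := v))]
    exact mul_le_mul_of_nonneg_right ((hφ2 _).trans (le_max_right _ _)) dist_nonneg
  · intro i
    unfold D
    rw [← hφ3 (x i) (y i), mul_div_assoc, div_self (dist_ne_zero.2 (hxy i)), mul_one, ← hTa φ i,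
      hφT]

/-- The weight with constant `M` is conservative. -/
lemma cons_const [DecidableEq X] [DecidableEq I] {x0 : X} {x y : I → X} (hxy : ∀ i, x i ≠ y i)
    (hT : IsInterpolating x0 x y) {A : Finset X} {F : Finset I} (hx : ∀ i ∈ F, x i ∈ A)
    (hy : ∀ i ∈ F, y i ∈ A) :
    Cons (src A F x hx) (tgt A F y hy) (wt A F x y (interpConst x0 x y)) := by
  intro C hC
  have hcont : Continuous (fun K : ℝ => ∑ e ∈ C, wt A F x y K e) := by
    refine continuous_finsetSum _ fun e _ => ?_
    rcases e with p | i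
    · exact continuous_id.mul continuous_const
    · exact continuous_const
  have hcl : IsClosed {K : ℝ | 0 ≤ ∑ e ∈ C, wt A F x y K e} :=
    isClosed_le continuous_const hcont
  have hsub : constSet x0 x y ⊆ {K : ℝ | 0 ≤ ∑ e ∈ C, wt A F x y K e} := by
    rintro K ⟨-, hK⟩
    refine cons_of_interp hx hy (fun α hα => ?_) C hC
    obtain ⟨g, hg, hgi⟩ := hK α hα
    refine ⟨g, hg.2, fun i => ?_⟩
    rw [← hgi i, D, div_mul_cancel₀ _ (dist_ne_zero.2 (hxy i))]
  exact (closure_minimal hsub hcl) (csInf_mem_closure (const_nonempty hxy hT)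
    ⟨1, fun K hK => hK.1⟩)

/-- Approximate Beurling sets. -/
def Appr [DecidableEq I] (x0 : X) (x y : I → X) (M : ℝ) (p : Finset I × Finset X) :
    Set (I → X → ℝ) :=
  {f | (∀ i v, f i v ∈ Set.Icc (-(M * dist v x0)) (M * dist v x0)) ∧
    (∀ i ∈ p.1, ∀ j ∈ p.1, f i (x j) - f i (y j) = if i = j then dist (x j) (y j) else 0) ∧
    ∀ u ∈ p.2, ∀ v ∈ p.2, ∑ i ∈ p.1, |f i u - f i v| ≤ M * dist u v}

/-- **Existence of Beurling sets.**  For every metric space `X` with base point `x0` and every
Lipschitz interpolating family of pairs `(x i, y i)` of distinct points, over an arbitrary index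
set `I`, the interpolation constant `M` is an infimum over a nonempty set, and there is a Beurling
set: functions `f i ∈ Lip₀(X)` with `D_{x j, y j} (f i) = δ_ij` and
`∑ i, |D_{u, v} (f i)| ≤ M` for all `u ≠ v`. -/
theorem result (x0 : X) (x y : I → X) (hxy : ∀ i, x i ≠ y i) (hT : IsInterpolating x0 x y) :
    (constSet x0 x y).Nonempty ∧ ∃ f : I → X → ℝ, IsBeurling x0 x y (interpConst x0 x y) f := by
  classical
  have hne := const_nonempty hxy hT
  refine ⟨hne, ?_⟩
  set M := interpConst x0 x y with hM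
  have hM1 : 1 ≤ M := le_csInf hne fun K hK => hK.1
  have hM0 : 0 ≤ M := zero_le_one.trans hM1
  -- compactness
  have hclosed : ∀ p, IsClosed (Appr x0 x y M p) := by
    intro p
    have h1 : ∀ (i : I) (v : X), Continuous (fun f : I → X → ℝ => f i v) := fun i v =>
      (continuous_apply v).comp (continuous_apply i)
    have : Appr x0 x y M p = (⋂ i, ⋂ v, {f | f i v ∈ Set.Icc (-(M * dist v x0)) (M * dist v x0)}) ∩
        ((⋂ i ∈ p.1, ⋂ j ∈ p.1,
          {f | f i (x j) - f i (y j) = if i = j then dist (x j) (y j) else 0}) ∩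
        ⋂ u ∈ p.2, ⋂ v ∈ p.2, {f | ∑ i ∈ p.1, |f i u - f i v| ≤ M * dist u v}) := by
      ext f
      simp only [Appr, Set.mem_ofPred_eq, Set.mem_inter_iff, Set.mem_iInter]
    rw [this]
    refine IsClosed.inter ?_ (IsClosed.inter ?_ ?_)
    · exact isClosed_iInter fun i => isClosed_iInter fun v => isClosed_Icc.preimage (h1 i v)
    · exact isClosed_iInter fun i => isClosed_iInter fun _ => isClosed_iInter fun j =>
        isClosed_iInter fun _ => isClosed_eq ((h1 i _).sub (h1 i _)) continuous_const
    · exact isClosed_iInter fun u => isClosed_iInter fun _ => isClosed_iInter fun v =>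
        isClosed_iInter fun _ => isClosed_le (continuous_finsetSum _ fun i _ =>
          ((h1 i u).sub (h1 i v)).abs) continuous_const
  have hcompact : ∀ p, IsCompact (Appr x0 x y M p) := by
    intro p
    refine IsCompact.of_isClosed_subset (isCompact_univ_pi fun _ : I =>
      isCompact_univ_pi fun v : X =>
        isCompact_Icc (a := -(M * dist v x0)) (b := M * dist v x0)) (hclosed p) ?_
    rintro f ⟨h1, -, -⟩
    rw [Set.mem_univ_pi]
    intro i
    rw [Set.mem_univ_pi]
    intro v
    exact h1 i v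
  have hanti : ∀ p q : Finset I × Finset X, p ≤ q → Appr x0 x y M q ⊆ Appr x0 x y M p := by
    rintro p q ⟨h1, h2⟩ f ⟨h3, h4, h5⟩
    refine ⟨h3, fun i hi j hj => h4 i (h1 hi) j (h1 hj), fun u hu v hv => ?_⟩
    exact (Finset.sum_le_sum_of_subset_of_nonneg h1 fun i _ _ => abs_nonneg _).trans
      (h5 u (h2 hu) v (h2 hv))
  have hdir : Directed (· ⊇ ·) (Appr x0 x y M) := by
    intro p q
    exact ⟨p ⊔ q, hanti _ _ le_sup_left, hanti _ _ le_sup_right⟩
  have hnonempty : ∀ p, (Appr x0 x y M p).Nonempty := by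
    rintro ⟨F, A0⟩
    set A : Finset X := insert x0 (A0 ∪ (F.image x ∪ F.image y)) with hA
    have hx : ∀ i ∈ F, x i ∈ A := by
      intro i hi
      rw [hA, Finset.mem_insert, Finset.mem_union, Finset.mem_union]
      exact Or.inr (Or.inr (Or.inl (Finset.mem_image_of_mem _ hi)))
    have hy : ∀ i ∈ F, y i ∈ A := by
      intro i hi
      rw [hA, Finset.mem_insert, Finset.mem_union, Finset.mem_union]
      exact Or.inr (Or.inr (Or.inr (Finset.mem_image_of_mem _ hi)))
    have hA0 : ∀ v ∈ A0, v ∈ A := by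
      intro v hv
      rw [hA, Finset.mem_insert, Finset.mem_union]
      exact Or.inr (Or.inl hv)
    have hx0 : x0 ∈ A := by
      rw [hA]
      exact Finset.mem_insert_self _ _
    obtain ⟨g, hg1, hg2⟩ := finite_case hx hy (fun i _ => dist_pos.2 (hxy i)) hM0
      (cons_const hxy hT hx hy)
    refine ⟨fun i v => if i ∈ F ∧ v ∈ A then g i v - g i x0 else 0, ?_, ?_, ?_⟩
    · intro i v
      by_cases h : i ∈ F ∧ v ∈ A
      · simp only [if_pos h]
        rw [Set.mem_Icc, ← abs_le]
        exact (Finset.single_le_sum (f := fun i => |g i v - g i x0|) (fun i _ => abs_nonneg _)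
          h.1).trans (hg2 v h.2 x0 hx0)
      · simp only [if_neg h]
        have : 0 ≤ M * dist v x0 := by positivity
        exact ⟨by linarith, this⟩
    · intro i hi j hj
      simp only at hi hj ⊢
      rw [if_pos ⟨hi, hx j hj⟩, if_pos ⟨hi, hy j hj⟩, ← hg1 i hi j hj]
      ring
    · intro u hu v hv
      refine le_trans (le_of_eq ?_) (hg2 u (hA0 u hu) v (hA0 v hv))
      refine Finset.sum_congr rfl fun i hi => ?_
      simp only
      rw [if_pos ⟨hi, hA0 u hu⟩, if_pos ⟨hi, hA0 v hv⟩]
      congr 1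
      ring
  obtain ⟨f, hf⟩ := IsCompact.nonempty_iInter_of_directed_nonempty_isCompact_isClosed
    _ hdir hnonempty hcompact hclosed
  rw [Set.mem_iInter] at hf
  have hsum : ∀ (F : Finset I) (u v : X), ∑ i ∈ F, |f i u - f i v| ≤ M * dist u v := by
    intro F u v
    exact (hf (F, {u, v})).2.2 u (by simp) v (by simp)
  have hpart : ∀ (u v : X), u ≠ v → ∀ F : Finset I, ∑ i ∈ F, |D u v (f i)| ≤ M := by
    intro u v huv F
    have hd : 0 < dist u v := dist_pos.2 huv
    have h1 : ∀ i ∈ F, |D u v (f i)| = |f i u - f i v| / dist u v := by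
      intro i _
      rw [D, abs_div, abs_of_pos hd]
    rw [Finset.sum_congr rfl h1, ← Finset.sum_div, div_le_iff₀ hd]
    exact hsum F u v
  refine ⟨f, ?_, ?_, ?_, ?_⟩
  · intro i
    refine ⟨M, ?_, fun u v => ?_⟩
    · have := (hf (∅, ∅)).1 i x0
      rw [dist_self, mul_zero, neg_zero, Set.Icc_self] at this
      exact this
    · have := hsum {i} u v
      rwa [Finset.sum_singleton] at this
  · intro i
    have := (hf ({i}, ∅)).2.1 i (by simp) i (by simp)
    rw [if_pos rfl] at this
    rw [D, this, div_self (dist_ne_zero.2 (hxy i))]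
  · intro i j hij
    have := (hf ({i, j}, ∅)).2.1 i (by simp) j (by simp)
    rw [if_neg hij] at this
    rw [D, this, zero_div]
  · intro u v huv
    have hS : Summable (fun i => |D u v (f i)|) :=
      summable_of_sum_le (fun i => abs_nonneg _) (hpart u v huv)
    exact ⟨hS, hS.tsum_le_of_sum_le (hpart u v huv)⟩

end Pool.Agent.Results.MP_f46ce3_an.BeurlingSets
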